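import Pool.Agent.W994.AR.Final

/-!
Product measures on subsets of a finite set, and the probability of avoiding prescribed traces on
pairwise disjoint sets.
-/

namespace Pool.Agent.H89SM

open Finset Pool.Agent.W994.AR

/-- the probability of `S` when each `o` is in `S` independently with probability `x o` -/
noncomputable def wt {Ω : Type} [Fintype Ω] [DecidableEq Ω] (x : Ω → ℝ) (S : Finset Ω) : ℝ :=
  ∏ o, if o ∈ S then x o else 1 - x o

theorem sum_powerset {Ω : Type} [Fintype Ω] [DecidableEq Ω] (x : Ω → ℝ) (D : Finset Ω) :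
    ∑ U ∈ D.powerset, ∏ o ∈ D, (if o ∈ U then x o else 1 - x o) = 1 := by
  have h := Finset.prod_add x (fun o => 1 - x o) D
  have h1 : ∏ o ∈ D, (x o + (1 - x o)) = 1 := by
    apply Finset.prod_eq_one
    intro o _
    ring
  rw [h1] at h
  refine Eq.trans ?_ h.symm
  apply Finset.sum_congr rfl
  intro U hU
  rw [Finset.mem_powerset] at hU
  rw [Finset.prod_ite]
  congr 1
  · apply Finset.prod_congr _ (fun _ _ => rfl)
    ext o
    simp only [Finset.mem_filter]
    exact ⟨fun h => h.2, fun h => ⟨hU h, h⟩⟩
  · apply Finset.prod_congr _ (fun _ _ => rfl)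
    ext o
    simp only [Finset.mem_filter, Finset.mem_sdiff]

theorem sum_wt {Ω : Type} [Fintype Ω] [DecidableEq Ω] (x : Ω → ℝ) :
    ∑ S : Finset Ω, wt x S = 1 := by
  have h := sum_powerset x (Finset.univ : Finset Ω)
  rw [Finset.powerset_univ] at h
  exact h

theorem wt_nonneg {Ω : Type} [Fintype Ω] [DecidableEq Ω] {x : Ω → ℝ} {p : ℝ} (hp0 : 0 < p)
    (hx : ∀ o, p ≤ x o ∧ x o ≤ 1 - p) (S : Finset Ω) : 0 ≤ wt x S := by
  apply Finset.prod_nonneg
  intro o _
  split_ifs
  · linarith [(hx o).1]
  · linarith [(hx o).2]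

theorem wt_split {Ω : Type} [Fintype Ω] [DecidableEq Ω] (x : Ω → ℝ) (D S : Finset Ω) :
    wt x S = (∏ o ∈ D, if o ∈ S then x o else 1 - x o) *
      ∏ o ∈ Dᶜ, if o ∈ S then x o else 1 - x o := by
  unfold wt
  rw [Finset.prod_mul_prod_compl]

theorem wcount {Ω κ : Type} [Fintype Ω] [DecidableEq Ω] {x : Ω → ℝ} {p : ℝ} (hp0 : 0 < p)
    (hx : ∀ o, p ≤ x o ∧ x o ≤ 1 - p) (d : ℕ) (W : Finset κ)
    (D A : κ → Finset Ω) (hp1 : p ≤ 1) (hA : ∀ w ∈ W, A w ⊆ D w) (hd : ∀ w ∈ W, (D w).card ≤ d)
    (hdis : ∀ w ∈ W, ∀ w' ∈ W, w ≠ w' → Disjoint (D w) (D w')) :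
    ∑ R ∈ (Finset.univ : Finset (Finset Ω)).filter (fun R => ∀ w ∈ W, R ∩ D w ≠ A w), wt x R ≤
      (1 - p ^ d) ^ W.card := by
  classical
  induction W using Finset.induction_on with
  | empty =>
    simp [sum_wt]
  | insert w0 W hw0 ih =>
    have ih' := ih (fun w hw => hA w (mem_insert_of_mem hw)) (fun w hw => hd w (mem_insert_of_mem hw))
      (fun w hw w' hw' => hdis w (mem_insert_of_mem hw) w' (mem_insert_of_mem hw'))
    set X := (Finset.univ : Finset (Finset Ω)).filter (fun R => ∀ w ∈ W, R ∩ D w ≠ A w) with hX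
    set X0 := X.filter (fun R => R ∩ D w0 = A w0) with hX0
    set Y := (Finset.univ : Finset (Finset Ω)).filter (fun R => ∀ w ∈ insert w0 W, R ∩ D w ≠ A w)
      with hY
    have hYX : ∑ R ∈ Y, wt x R + ∑ R ∈ X0, wt x R = ∑ R ∈ X, wt x R := by
      have : Y = X.filter (fun R => ¬ (R ∩ D w0 = A w0)) := by
        ext R
        simp only [hY, hX, mem_filter, mem_univ, true_and, mem_insert, forall_eq_or_imp]
        tauto
      rw [this, add_comm]
      exact Finset.sum_filter_add_sum_filter_not X (fun R => R ∩ D w0 = A w0) _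
    have hA0 := hA w0 (mem_insert_self _ _)
    have hmap : ∀ R ∈ X, ((R \ D w0) ∪ A w0, R ∩ D w0) ∈
        (X0 ×ˢ (D w0).powerset : Finset (Finset Ω × Finset Ω)) := by
      intro R hR
      simp only [hX, mem_filter, mem_univ, true_and] at hR
      simp only [hX, hX0, mem_product, mem_filter, mem_univ, true_and, mem_powerset]
      refine ⟨⟨?_, ?_⟩, inter_subset_right⟩
      · intro w hw h
        apply hR w hw
        rw [← h]
        have hdisj : Disjoint (D w0) (D w) := hdis w0 (mem_insert_self _ _) w (mem_insert_of_mem hw)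
          (fun h => hw0 (h ▸ hw))
        ext o
        simp only [mem_inter, mem_union, mem_sdiff]
        constructor
        · rintro ⟨h1, h2⟩
          exact ⟨Or.inl ⟨h1, fun h3 => Finset.disjoint_left.1 hdisj h3 h2⟩, h2⟩
        · rintro ⟨h1 | h1, h2⟩
          · exact ⟨h1.1, h2⟩
          · exact absurd h2 (Finset.disjoint_left.1 hdisj (hA0 h1))
      · ext o
        simp only [mem_inter, mem_union, mem_sdiff]
        constructor
        · rintro ⟨h1 | h1, h2⟩
          · exact absurd h2 h1.2
          · exact h1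
        · intro h
          exact ⟨Or.inr h, hA0 h⟩
    have hrec : ∀ R : Finset Ω, ((((R \ D w0) ∪ A w0) \ D w0) ∪ (R ∩ D w0)) = R := by
      intro R
      ext o
      simp only [mem_inter, mem_union, mem_sdiff]
      constructor
      · rintro (⟨h1 | h1, h2⟩ | h1)
        · exact h1.1
        · exact absurd (hA0 h1) h2
        · exact h1.1
      · intro h
        by_cases ho : o ∈ D w0
        · exact Or.inr ⟨h, ho⟩
        · exact Or.inl ⟨Or.inl ⟨h, ho⟩, ho⟩
    have hinj : ∀ R ∈ X, ∀ R' ∈ X, ((R \ D w0) ∪ A w0, R ∩ D w0) = ((R' \ D w0) ∪ A w0, R' ∩ D w0) →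
        R = R' := by
      intro R _ R' _ h
      simp only [Prod.mk.injEq] at h
      rw [← hrec R, ← hrec R', h.1, h.2]
    have h1 : ∑ R ∈ X, wt x R ≤ ∑ TU ∈ X0 ×ˢ (D w0).powerset, wt x ((TU.1 \ D w0) ∪ TU.2) := by
      have h2 : ∑ R ∈ X, wt x R =
          ∑ TU ∈ X.image (fun R => ((R \ D w0) ∪ A w0, R ∩ D w0)), wt x ((TU.1 \ D w0) ∪ TU.2) := by
        rw [Finset.sum_image (fun a ha b hb hab => hinj a ha b hb hab)]
        apply Finset.sum_congr rfl
        intro R _
        rw [hrec]
      rw [h2]
      apply Finset.sum_le_sum_of_subset_of_nonneg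
      · intro TU hTU
        obtain ⟨R, hR, rfl⟩ := Finset.mem_image.1 hTU
        exact hmap R hR
      · intro TU _ _
        exact wt_nonneg hp0 hx _
    have h3 : ∀ T : Finset Ω, ∑ U ∈ (D w0).powerset, wt x ((T \ D w0) ∪ U) =
        ∏ o ∈ (D w0)ᶜ, if o ∈ T then x o else 1 - x o := by
      intro T
      have h4 : ∀ U ∈ (D w0).powerset, wt x ((T \ D w0) ∪ U) =
          (∏ o ∈ D w0, if o ∈ U then x o else 1 - x o) *
            ∏ o ∈ (D w0)ᶜ, if o ∈ T then x o else 1 - x o := by
        intro U hU
        rw [Finset.mem_powerset] at hU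
        rw [wt_split x (D w0)]
        congr 1
        · apply Finset.prod_congr rfl
          intro o ho
          have : (o ∈ (T \ D w0) ∪ U) ↔ o ∈ U := by
            simp only [mem_union, mem_sdiff]
            tauto
          simp only [this]
        · apply Finset.prod_congr rfl
          intro o ho
          rw [Finset.mem_compl] at ho
          have : (o ∈ (T \ D w0) ∪ U) ↔ o ∈ T := by
            simp only [mem_union, mem_sdiff]
            constructor
            · rintro (h | h)
              · exact h.1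
              · exact absurd (hU h) ho
            · intro h
              exact Or.inl ⟨h, ho⟩
          simp only [this]
      rw [Finset.sum_congr rfl h4, ← Finset.sum_mul, sum_powerset, one_mul]
    have h5 : (∑ R ∈ X, wt x R) * p ^ d ≤ ∑ R ∈ X0, wt x R := by
      calc (∑ R ∈ X, wt x R) * p ^ d
          ≤ (∑ TU ∈ X0 ×ˢ (D w0).powerset, wt x ((TU.1 \ D w0) ∪ TU.2)) * p ^ d :=
            mul_le_mul_of_nonneg_right h1 (by positivity)
        _ = ∑ T ∈ X0, (∏ o ∈ (D w0)ᶜ, if o ∈ T then x o else 1 - x o) * p ^ d := by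
            rw [Finset.sum_product, Finset.sum_mul]
            apply Finset.sum_congr rfl
            intro T _
            rw [h3 T]
        _ ≤ ∑ R ∈ X0, wt x R := by
            apply Finset.sum_le_sum
            intro T _
            rw [wt_split x (D w0) T, mul_comm]
            apply mul_le_mul_of_nonneg_right
            · calc p ^ d ≤ p ^ (D w0).card :=
                    pow_le_pow_of_le_one hp0.le hp1 (hd w0 (mem_insert_self _ _))
                _ = ∏ o ∈ D w0, p := by rw [Finset.prod_const]
                _ ≤ _ := by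
                    apply Finset.prod_le_prod (fun _ _ => hp0.le)
                    intro o _
                    split_ifs
                    · exact (hx o).1
                    · linarith [(hx o).2]
            · apply Finset.prod_nonneg
              intro o _
              split_ifs
              · linarith [(hx o).1]
              · linarith [(hx o).2]
    have h6 : (0 : ℝ) ≤ 1 - p ^ d := by
      have : p ^ d ≤ 1 := pow_le_one₀ hp0.le hp1
      linarith
    rw [card_insert_of_notMem hw0, pow_succ]
    calc ∑ R ∈ Y, wt x R ≤ (∑ R ∈ X, wt x R) * (1 - p ^ d) := by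
          have : ∑ R ∈ Y, wt x R = ∑ R ∈ X, wt x R - ∑ R ∈ X0, wt x R := by linarith
          rw [this]
          linarith
      _ ≤ (1 - p ^ d) ^ W.card * (1 - p ^ d) := mul_le_mul_of_nonneg_right ih' h6

end Pool.Agent.H89SM
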