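import Pool.Agent.H89SM.WRich

/-!
Several independent random relations.
-/

namespace Pool.Agent.H89SM

open Finset Pool.Agent.W994.AR

variable {B : Type}

theorem gsum_filter {α : Type} [Fintype α] (f : α → ℝ) (P : α → Prop) [DecidablePred P] :
    ∑ᶠ (a : α) (_ : P a), f a = ∑ a ∈ (Finset.univ : Finset α).filter P, f a := by
  rw [finsum_eq_sum_of_fintype, Finset.sum_filter]
  apply Finset.sum_congr rfl
  intro R _
  rw [finsum_eq_if]

theorem gsum_mono {α : Type} [Finite α] (f : α → ℝ) (hf : ∀ a, 0 ≤ f a) (P Q : α → Prop)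
    (h : ∀ a, P a → Q a) : ∑ᶠ (a : α) (_ : P a), f a ≤ ∑ᶠ (a : α) (_ : Q a), f a := by
  classical
  have := Fintype.ofFinite α
  rw [gsum_filter, gsum_filter]
  apply Finset.sum_le_sum_of_subset_of_nonneg
  · intro R hR
    simp only [Finset.mem_filter, Finset.mem_univ, true_and] at hR ⊢
    exact h R hR
  · intro R _ _
    exact hf R

theorem sum_prod_prob (G : Subgroup (Equiv.Perm B)) (hfin : ∀ k, Finite (Orb G (Fin k)))
    {t : ℕ} (k : Fin t → ℕ) (x : ∀ j, Orb G (Fin (k j)) → ℝ) :
    ∑ᶠ R : (∀ j, InvRel G (Fin (k j))), ∏ j, prob G (x j) (R j) = 1 := by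
  classical
  have hF : ∀ j, Finite (InvRel G (Fin (k j))) := fun j => by
    have := hfin (k j)
    exact finite_inv G _
  have hFt : ∀ j, Fintype (InvRel G (Fin (k j))) := fun j => Fintype.ofFinite _
  rw [finsum_eq_sum_of_fintype]
  have h := Finset.prod_univ_sum (fun j => (Finset.univ : Finset (InvRel G (Fin (k j)))))
    (fun j R => prob G (x j) R)
  rw [Fintype.piFinset_univ] at h
  rw [← h]
  apply Finset.prod_eq_one
  intro j _
  have := hfin (k j)
  rw [← finsum_eq_sum_of_fintype]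
  exact sum_prob G (k j) (x j)

theorem rich_prob_many (G : Subgroup (Equiv.Perm B)) (M : ℕ) (hM : 0 < M)
    (hfin : ∀ k, Finite (Orb G (Fin k))) :
    ∃ (C c : ℝ) (N : ℕ), 0 < C ∧ 0 < c ∧ ∀ (t : ℕ) (k : Fin t → ℕ) (m : ℕ) (p : ℝ)
      (x : ∀ j, Orb G (Fin (k j)) → ℝ), (∀ j, m ≤ k j) → 0 < p →
      p ≤ 1 / 2 → (∀ j o, p ≤ x j o ∧ x j o ≤ 1 - p) →
      ∑ᶠ (R : ∀ j, InvRel G (Fin (k j))) (_ : ¬ ∀ j, Rich G (Fin M) (R j).1),
        ∏ j, prob G (x j) (R j) ≤ t * C * Real.exp (-(p ^ N * Real.exp (c * m))) := by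
  classical
  obtain ⟨C, c, N, hC, hc, h⟩ := rich_prob G M hM hfin
  refine ⟨C, c, N, hC, hc, ?_⟩
  intro t k m p x hm hp0 hp2 hx
  have hF : ∀ j, Finite (InvRel G (Fin (k j))) := fun j => by
    have := hfin (k j)
    exact finite_inv G _
  have hFt : ∀ j, Fintype (InvRel G (Fin (k j))) := fun j => Fintype.ofFinite _
  have hnn : ∀ R : (∀ j, InvRel G (Fin (k j))), 0 ≤ ∏ j, prob G (x j) (R j) := by
    intro R
    apply Finset.prod_nonneg
    intro j _
    have := hfin (k j)
    exact prob_nonneg G (k j) hp0 (hx j) (R j)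
  -- the bad sets
  let bad : ∀ j : Fin t, Finset (∀ i, InvRel G (Fin (k i))) := fun j =>
    Fintype.piFinset (fun i => if i = j then Finset.univ.filter (fun R => ¬ Rich G (Fin M) R.1)
      else Finset.univ)
  have hcard : ∀ j, ∑ R ∈ bad j, ∏ i, prob G (x i) (R i) ≤
      C * Real.exp (-(p ^ N * Real.exp (c * m))) := by
    intro j
    have h0 := Finset.prod_univ_sum (fun i => if i = j then
      (Finset.univ : Finset (InvRel G (Fin (k i)))).filter (fun R => ¬ Rich G (Fin M) R.1)
      else Finset.univ) (fun i R => prob G (x i) R)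
    change ∑ R ∈ Fintype.piFinset _, ∏ i, prob G (x i) (R i) ≤ _
    rw [← h0, ← Finset.mul_prod_erase _ _ (Finset.mem_univ j), if_pos rfl]
    have h1 : ∏ i ∈ Finset.univ.erase j, ∑ R ∈ (if i = j then
        (Finset.univ : Finset (InvRel G (Fin (k i)))).filter (fun R => ¬ Rich G (Fin M) R.1)
        else Finset.univ), prob G (x i) R = 1 := by
      apply Finset.prod_eq_one
      intro i hi
      rw [if_neg (Finset.ne_of_mem_erase hi)]
      have := hfin (k i)
      rw [← finsum_eq_sum_of_fintype]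
      exact sum_prob G (k i) (x i)
    rw [h1, mul_one, ← gsum_filter]
    refine (h (k j) p (x j) hp0 hp2 (hx j)).trans ?_
    apply mul_le_mul_of_nonneg_left _ hC.le
    apply Real.exp_le_exp.2
    have h5 : Real.exp (c * m) ≤ Real.exp (c * k j) := by
      apply Real.exp_le_exp.2
      apply mul_le_mul_of_nonneg_left _ hc.le
      exact_mod_cast hm j
    have hpN : 0 ≤ p ^ N := by positivity
    have := mul_le_mul_of_nonneg_left h5 hpN
    linarith
  rw [gsum_filter]
  calc ∑ R ∈ (Finset.univ : Finset (∀ j, InvRel G (Fin (k j)))).filter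
        (fun R => ¬ ∀ j, Rich G (Fin M) (R j).1), ∏ j, prob G (x j) (R j)
      ≤ ∑ R ∈ Finset.univ.biUnion bad, ∏ j, prob G (x j) (R j) := by
        apply Finset.sum_le_sum_of_subset_of_nonneg _ (fun R _ _ => hnn R)
        intro R hR
        obtain ⟨j, hj⟩ := not_forall.1 (Finset.mem_filter.1 hR).2
        rw [Finset.mem_biUnion]
        refine ⟨j, Finset.mem_univ _, ?_⟩
        rw [Fintype.mem_piFinset]
        intro i
        by_cases hij : i = j
        · subst hij
          rw [if_pos rfl, Finset.mem_filter]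
          exact ⟨Finset.mem_univ _, hj⟩
        · rw [if_neg hij]
          exact Finset.mem_univ _
    _ ≤ ∑ j, ∑ R ∈ bad j, ∏ i, prob G (x i) (R i) := sum_biUnion_le' _ _ _ hnn
    _ ≤ ∑ _j : Fin t, C * Real.exp (-(p ^ N * Real.exp (c * m))) :=
        Finset.sum_le_sum (fun j _ => hcard j)
    _ = _ := by
        rw [Finset.sum_const, Finset.card_univ, Fintype.card_fin, nsmul_eq_mul]
        ring

end Pool.Agent.H89SM
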