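import Pool.Agent.H89SM.WCount

/-!
The probability that a random invariant relation is not rich.
-/

namespace Pool.Agent.H89SM

open Finset Pool.Agent.W994.AR

variable {B : Type}

open Classical in
/-- The probability of the `G`-invariant relation `R` when each orbit `o` of `k`-tuples is put into
the random relation independently of the others with probability `x o`. -/
noncomputable def prob (G : Subgroup (Equiv.Perm B)) {k : ℕ} (x : Orb G (Fin k) → ℝ)
    (R : InvRel G (Fin k)) : ℝ :=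
  ∏ᶠ o : Orb G (Fin k), if ∃ v ∈ R.1, Quotient.mk (orb G (Fin k)) v = o then x o else 1 - x o

/-- invariant relations as finite sets of orbits -/
noncomputable def invFin (G : Subgroup (Equiv.Perm B)) (k : ℕ) [Fintype (Orb G (Fin k))] :
    InvRel G (Fin k) ≃ Finset (Orb G (Fin k)) :=
  (invEquiv G (Fin k)).trans Fintype.finsetEquivSet.symm

theorem mem_invFin (G : Subgroup (Equiv.Perm B)) (k : ℕ) [Fintype (Orb G (Fin k))]
    (R : InvRel G (Fin k)) (o : Orb G (Fin k)) :
    o ∈ invFin G k R ↔ ∃ v ∈ R.1, Quotient.mk (orb G (Fin k)) v = o := by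
  have h : (Fintype.finsetEquivSet (invFin G k R)) = invEquiv G (Fin k) R := by
    unfold invFin
    simp
  have h2 : o ∈ (Fintype.finsetEquivSet (invFin G k R)) ↔ o ∈ invFin G k R := by
    rw [Fintype.finsetEquivSet_apply]
    exact Finset.mem_coe
  rw [← h2, h]
  rfl

theorem mem_invFin_mk (G : Subgroup (Equiv.Perm B)) (k : ℕ) [Fintype (Orb G (Fin k))]
    (R : InvRel G (Fin k)) (v : Fin k → B) :
    Quotient.mk (orb G (Fin k)) v ∈ invFin G k R ↔ v ∈ R.1 := by
  rw [mem_invFin]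
  constructor
  · rintro ⟨u, hu, h⟩
    exact Same.mem (Quotient.exact h) R.2 hu
  · intro hv
    exact ⟨v, hv, rfl⟩

theorem prob_eq (G : Subgroup (Equiv.Perm B)) (k : ℕ) [Fintype (Orb G (Fin k))]
    [DecidableEq (Orb G (Fin k))] (x : Orb G (Fin k) → ℝ) (R : InvRel G (Fin k)) :
    prob G x R = wt x (invFin G k R) := by
  unfold prob wt
  rw [finprod_eq_prod_of_fintype]
  apply Finset.prod_congr rfl
  intro o _
  by_cases h : o ∈ invFin G k R
  · rw [if_pos h, if_pos ((mem_invFin G k R o).1 h)]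
  · rw [if_neg h, if_neg (fun h2 => h ((mem_invFin G k R o).2 h2))]

theorem sum_prob (G : Subgroup (Equiv.Perm B)) (k : ℕ) [Finite (Orb G (Fin k))]
    (x : Orb G (Fin k) → ℝ) : ∑ᶠ R : InvRel G (Fin k), prob G x R = 1 := by
  classical
  have := Fintype.ofFinite (Orb G (Fin k))
  have : Fintype (InvRel G (Fin k)) := Fintype.ofEquiv _ (invFin G k).symm
  rw [finsum_eq_sum_of_fintype, ← sum_wt x]
  exact Fintype.sum_equiv (invFin G k) _ _ (fun R => prob_eq G k x R)

theorem prob_nonneg (G : Subgroup (Equiv.Perm B)) (k : ℕ) [Finite (Orb G (Fin k))]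
    {x : Orb G (Fin k) → ℝ} {p : ℝ} (hp0 : 0 < p) (hx : ∀ o, p ≤ x o ∧ x o ≤ 1 - p)
    (R : InvRel G (Fin k)) : 0 ≤ prob G x R := by
  classical
  have := Fintype.ofFinite (Orb G (Fin k))
  rw [prob_eq]
  exact wt_nonneg hp0 hx _

theorem fsum_filter (G : Subgroup (Equiv.Perm B)) (k : ℕ) [Fintype (InvRel G (Fin k))]
    (x : Orb G (Fin k) → ℝ) (P : InvRel G (Fin k) → Prop) [DecidablePred P] :
    ∑ᶠ (R : InvRel G (Fin k)) (_ : P R), prob G x R =
      ∑ R ∈ (Finset.univ : Finset (InvRel G (Fin k))).filter P, prob G x R := by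
  rw [finsum_eq_sum_of_fintype, Finset.sum_filter]
  apply Finset.sum_congr rfl
  intro R _
  rw [finsum_eq_if]

/-- the sum over a larger event is larger -/
theorem fsum_mono (G : Subgroup (Equiv.Perm B)) (k : ℕ) [Finite (Orb G (Fin k))]
    {x : Orb G (Fin k) → ℝ} {p : ℝ} (hp0 : 0 < p) (hx : ∀ o, p ≤ x o ∧ x o ≤ 1 - p)
    (P Q : InvRel G (Fin k) → Prop) (h : ∀ R, P R → Q R) :
    ∑ᶠ (R : InvRel G (Fin k)) (_ : P R), prob G x R ≤
      ∑ᶠ (R : InvRel G (Fin k)) (_ : Q R), prob G x R := by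
  classical
  have := Fintype.ofFinite (Orb G (Fin k))
  have : Fintype (InvRel G (Fin k)) := Fintype.ofEquiv _ (invFin G k).symm
  rw [fsum_filter, fsum_filter]
  apply Finset.sum_le_sum_of_subset_of_nonneg
  · intro R hR
    simp only [Finset.mem_filter, Finset.mem_univ, true_and] at hR ⊢
    exact h R hR
  · intro R _ _
    exact prob_nonneg G k hp0 hx R

theorem fsum_le_one (G : Subgroup (Equiv.Perm B)) (k : ℕ) [Finite (Orb G (Fin k))]
    {x : Orb G (Fin k) → ℝ} {p : ℝ} (hp0 : 0 < p) (hx : ∀ o, p ≤ x o ∧ x o ≤ 1 - p)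
    (P : InvRel G (Fin k) → Prop) :
    ∑ᶠ (R : InvRel G (Fin k)) (_ : P R), prob G x R ≤ 1 := by
  classical
  have := Fintype.ofFinite (Orb G (Fin k))
  have : Fintype (InvRel G (Fin k)) := Fintype.ofEquiv _ (invFin G k).symm
  rw [← sum_prob G k x, fsum_filter, finsum_eq_sum_of_fintype]
  apply Finset.sum_le_sum_of_subset_of_nonneg (Finset.filter_subset _ _)
  intro R _ _
  exact prob_nonneg G k hp0 hx R

theorem sum_biUnion_le' {α β : Type} [DecidableEq α] [DecidableEq β] (s : Finset β)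
    (t : β → Finset α) (f : α → ℝ) (hf : ∀ a, 0 ≤ f a) :
    ∑ a ∈ s.biUnion t, f a ≤ ∑ b ∈ s, ∑ a ∈ t b, f a := by
  induction s using Finset.induction_on with
  | empty => simp
  | insert b s hb ih =>
    rw [Finset.biUnion_insert, Finset.sum_insert hb]
    have h1 : ∑ a ∈ t b ∪ s.biUnion t, f a ≤ ∑ a ∈ t b, f a + ∑ a ∈ s.biUnion t, f a := by
      rw [← Finset.sum_union_inter]
      have : 0 ≤ ∑ a ∈ t b ∩ s.biUnion t, f a := Finset.sum_nonneg (fun a _ => hf a)
      linarith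
    linarith

theorem rich_prob_aux (G : Subgroup (Equiv.Perm B)) (M k m : ℕ) (hM : 0 < M)
    (hk : (m + 1) * M ≤ k) [hF : Finite (Orb G (Fin M))] [Finite (Orb G (Fin k))]
    {x : Orb G (Fin k) → ℝ} {p : ℝ} (hp0 : 0 < p) (hp1 : p ≤ 1)
    (hx : ∀ o, p ≤ x o ∧ x o ≤ 1 - p) :
    ∑ᶠ (R : InvRel G (Fin k)) (_ : ¬ Rich G (Fin M) R.1), prob G x R ≤
      Nat.card (Orb G (Fin M)) * (1 - p ^ Nat.card (Orb G (Fin M))) ^ (2 ^ m) := by
  classical
  have := Fintype.ofFinite (Orb G (Fin M))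
  have := Fintype.ofFinite (Orb G (Fin k))
  have : Fintype (InvRel G (Fin k)) := Fintype.ofEquiv _ (invFin G k).symm
  have hMk : M ≤ k := le_trans (by nlinarith) hk
  -- the map on orbits
  let φ : Finset ℕ → Orb G (Fin M) → Orb G (Fin k) := fun A =>
    Quotient.map' (s₁ := orb G (Fin M)) (s₂ := orb G (Fin k)) (fun u => u ∘ word M k hM A)
      (fun u v h => Same.comp h _)
  have hφ : ∀ A u, φ A (Quotient.mk (orb G (Fin M)) u) = Quotient.mk (orb G (Fin k)) (u ∘ word M k hM A) :=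
    fun A u => rfl
  let ncO : Finset (Orb G (Fin M)) := Finset.univ.filter (fun o => ∃ u, NC u ∧ Quotient.mk (orb G (Fin M)) u = o)
  have hφinj : ∀ A o o', φ A o = φ A o' → o = o' := by
    intro A o o' h
    obtain ⟨u, rfl⟩ := Quotient.exists_rep o
    obtain ⟨v, rfl⟩ := Quotient.exists_rep o'
    apply Quotient.sound
    exact same_of_word M k hM hMk A u v (Quotient.exact h)
  let D : Finset ℕ → Finset (Orb G (Fin k)) := fun A => ncO.image (φ A)
  let T : Orb G (Fin M) → Finset ℕ → Finset (Orb G (Fin k)) := fun o A => (ncO.erase o).image (φ A)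
  let W : Finset (Finset ℕ) := (Finset.Icc 1 m).powerset
  have hWcard : W.card = 2 ^ m := by
    simp [W]
  have hcount : ∀ o, ∑ R ∈ (Finset.univ : Finset (Finset (Orb G (Fin k)))).filter
      (fun R => ∀ w ∈ W, R ∩ D w ≠ T o w), wt x R ≤
      (1 - p ^ Nat.card (Orb G (Fin M))) ^ (2 ^ m) := by
    intro o
    rw [← hWcard]
    apply wcount hp0 hx _ _ _ _ hp1
    · intro w _
      exact Finset.image_subset_image (Finset.erase_subset _ _)
    · intro w _
      rw [Nat.card_eq_fintype_card]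
      exact (Finset.card_image_le).trans (Finset.card_le_univ _)
    · intro w hw w' hw' hne
      rw [Finset.disjoint_left]
      intro y hy hy'
      obtain ⟨o1, ho1, h1⟩ := Finset.mem_image.1 hy
      obtain ⟨o2, ho2, h2⟩ := Finset.mem_image.1 hy'
      obtain ⟨u, hu, rfl⟩ := (Finset.mem_filter.1 ho1).2
      obtain ⟨v, hv, rfl⟩ := (Finset.mem_filter.1 ho2).2
      rw [← h2] at h1
      exact word_differ M k m hM hk w w' (Finset.mem_powerset.1 hw) (Finset.mem_powerset.1 hw') hne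
        u v hu hv (Quotient.exact h1)
  have himg : ∀ R : InvRel G (Fin k), ¬ Rich G (Fin M) R.1 →
      invFin G k R ∈ (Finset.univ : Finset (Orb G (Fin M))).biUnion (fun o =>
      (Finset.univ : Finset (Finset (Orb G (Fin k)))).filter (fun R => ∀ w ∈ W, R ∩ D w ≠ T o w)) := by
    intro R hR
    unfold Rich at hR
    push Not at hR
    obtain ⟨v, hv, hbad⟩ := hR
    rw [Finset.mem_biUnion]
    refine ⟨Quotient.mk (orb G (Fin M)) v, Finset.mem_univ _, ?_⟩
    rw [Finset.mem_filter]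
    refine ⟨Finset.mem_univ _, ?_⟩
    intro A _ hEq
    have hvnc : Quotient.mk (orb G (Fin M)) v ∈ ncO :=
      Finset.mem_filter.2 ⟨Finset.mem_univ _, v, hv, rfl⟩
    have h1 : v ∘ word M k hM A ∉ R.1 := by
      intro hin
      have h2 : φ A (Quotient.mk (orb G (Fin M)) v) ∈ invFin G k R ∩ D A := by
        rw [Finset.mem_inter]
        refine ⟨?_, Finset.mem_image_of_mem _ hvnc⟩
        rw [hφ]
        exact (mem_invFin_mk G k R _).2 hin
      rw [hEq] at h2
      obtain ⟨o', ho', h3⟩ := Finset.mem_image.1 h2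
      have := hφinj A _ _ h3
      rw [this] at ho'
      exact Finset.notMem_erase _ _ ho'
    obtain ⟨u, hu, hus, hun⟩ := hbad (word M k hM A) h1
    apply hun
    have h2 : φ A (Quotient.mk (orb G (Fin M)) u) ∈ T (Quotient.mk (orb G (Fin M)) v) A := by
      apply Finset.mem_image_of_mem
      rw [Finset.mem_erase]
      refine ⟨fun h => hus (Quotient.exact h), Finset.mem_filter.2 ⟨Finset.mem_univ _, u, hu, rfl⟩⟩
    rw [← hEq, Finset.mem_inter, hφ] at h2
    exact (mem_invFin_mk G k R _).1 h2.1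
  rw [fsum_filter]
  calc ∑ R ∈ (Finset.univ : Finset (InvRel G (Fin k))).filter (fun R => ¬ Rich G (Fin M) R.1),
        prob G x R
      = ∑ S ∈ ((Finset.univ : Finset (InvRel G (Fin k))).filter
          (fun R => ¬ Rich G (Fin M) R.1)).image (invFin G k), wt x S := by
        rw [Finset.sum_image (fun a _ b _ h => (invFin G k).injective h)]
        exact Finset.sum_congr rfl (fun R _ => prob_eq G k x R)
    _ ≤ ∑ S ∈ (Finset.univ : Finset (Orb G (Fin M))).biUnion (fun o =>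
      (Finset.univ : Finset (Finset (Orb G (Fin k)))).filter
        (fun R => ∀ w ∈ W, R ∩ D w ≠ T o w)), wt x S := by
        apply Finset.sum_le_sum_of_subset_of_nonneg
        · intro S hS
          obtain ⟨R, hR, rfl⟩ := Finset.mem_image.1 hS
          exact himg R (Finset.mem_filter.1 hR).2
        · intro S _ _
          exact wt_nonneg hp0 hx S
    _ ≤ ∑ o : Orb G (Fin M), ∑ S ∈ (Finset.univ : Finset (Finset (Orb G (Fin k)))).filter
        (fun R => ∀ w ∈ W, R ∩ D w ≠ T o w), wt x S := by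
        exact sum_biUnion_le' _ _ _ (fun S => wt_nonneg hp0 hx S)
    _ ≤ ∑ _o : Orb G (Fin M), (1 - p ^ Nat.card (Orb G (Fin M))) ^ (2 ^ m) :=
        Finset.sum_le_sum (fun o _ => hcount o)
    _ = _ := by
        rw [Finset.sum_const, Finset.card_univ, nsmul_eq_mul, Nat.card_eq_fintype_card]

theorem rich_prob (G : Subgroup (Equiv.Perm B)) (M : ℕ) (hM : 0 < M)
    (hfin : ∀ k, Finite (Orb G (Fin k))) :
    ∃ (C c : ℝ) (N : ℕ), 0 < C ∧ 0 < c ∧ ∀ (k : ℕ) (p : ℝ) (x : Orb G (Fin k) → ℝ), 0 < p →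
      p ≤ 1 / 2 → (∀ o, p ≤ x o ∧ x o ≤ 1 - p) →
      ∑ᶠ (R : InvRel G (Fin k)) (_ : ¬ Rich G (Fin M) R.1), prob G x R ≤
        C * Real.exp (-(p ^ N * Real.exp (c * k))) := by
  set N := Nat.card (Orb G (Fin M)) with hN
  have hMr : (0 : ℝ) < M := by exact_mod_cast hM
  have hl2 : 0 < Real.log 2 := Real.log_pos (by norm_num)
  refine ⟨N + 2, Real.log 2 / M, N + 2, by positivity, by positivity, ?_⟩
  intro k p x hp0 hp2 hx
  have := hfin k
  have := hfin M
  have hp1 : p ≤ 1 := by linarith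
  have hx0 : (0 : ℝ) ≤ p ^ N := by positivity
  have hx1 : p ^ N ≤ 1 := pow_le_one₀ hp0.le hp1
  have hpN : p ^ (N + 2) ≤ p ^ N / 4 := by
    rw [pow_add]
    have : p ^ 2 ≤ 1 / 4 := by nlinarith
    nlinarith
  have hpN0 : 0 ≤ p ^ (N + 2) := by positivity
  have hexp : Real.exp (Real.log 2 / M * k) = (2 : ℝ) ^ ((k : ℝ) / M) := by
    rw [Real.rpow_def_of_pos (by norm_num)]
    congr 1
    field_simp
  rw [hexp]
  have h2pos : (0 : ℝ) ≤ (2 : ℝ) ^ ((k : ℝ) / M) := by positivity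
  have hmain : Real.exp (-(p ^ N / 4 * (2 : ℝ) ^ ((k : ℝ) / M))) ≤
      Real.exp (-(p ^ (N + 2) * (2 : ℝ) ^ ((k : ℝ) / M))) := by
    apply Real.exp_le_exp.2
    have := mul_le_mul_of_nonneg_right hpN h2pos
    linarith
  have hN0 : (0 : ℝ) ≤ N := Nat.cast_nonneg _
  rcases Nat.lt_or_ge k M with hk | hk
  · -- small k
    have h1 : (2 : ℝ) ^ ((k : ℝ) / M) ≤ 2 := by
      have : (2 : ℝ) ^ ((k : ℝ) / M) ≤ (2 : ℝ) ^ (1 : ℝ) := by
        apply Real.rpow_le_rpow_of_exponent_le (by norm_num)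
        rw [div_le_one hMr]
        exact_mod_cast hk.le
      rwa [Real.rpow_one] at this
    have h3 : p ^ N / 4 * (2 : ℝ) ^ ((k : ℝ) / M) ≤ 1 / 2 := by
      calc p ^ N / 4 * (2 : ℝ) ^ ((k : ℝ) / M) ≤ 1 / 4 * 2 := by
            apply mul_le_mul (by linarith) h1 (by positivity) (by norm_num)
        _ = 1 / 2 := by norm_num
    have h4 : (1 : ℝ) / 2 ≤ Real.exp (-(p ^ N / 4 * (2 : ℝ) ^ ((k : ℝ) / M))) := by
      have := Real.add_one_le_exp (-(p ^ N / 4 * (2 : ℝ) ^ ((k : ℝ) / M)))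
      linarith
    have h5 : (1 : ℝ) / 2 ≤ Real.exp (-(p ^ (N + 2) * (2 : ℝ) ^ ((k : ℝ) / M))) := h4.trans hmain
    calc _ ≤ (1 : ℝ) := fsum_le_one G k hp0 hx _
      _ ≤ (N + 2) * Real.exp (-(p ^ (N + 2) * (2 : ℝ) ^ ((k : ℝ) / M))) := by nlinarith
  · -- large k
    have hq1 : 1 ≤ k / M := (Nat.one_le_div_iff hM).2 hk
    set m := k / M - 1 with hm
    have hm1 : m + 1 = k / M := by omega
    have hmk : (m + 1) * M ≤ k := by rw [hm1]; exact Nat.div_mul_le_self k M
    have h := rich_prob_aux G M k m hM hmk hp0 hp1 hx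
    rw [← hN] at h
    refine h.trans ?_
    have h1 : (1 - p ^ N) ^ (2 ^ m) ≤ Real.exp (-(p ^ N * 2 ^ m)) := by
      have h2 : 1 - p ^ N ≤ Real.exp (-p ^ N) := by
        have := Real.add_one_le_exp (-p ^ N)
        linarith
      calc (1 - p ^ N) ^ (2 ^ m) ≤ Real.exp (-p ^ N) ^ (2 ^ m) :=
            pow_le_pow_left₀ (by linarith) h2 _
        _ = _ := by
            rw [← Real.exp_nat_mul]
            congr 1
            push_cast
            ring
    have h3 : (2 : ℝ) ^ ((k : ℝ) / M) / 4 ≤ 2 ^ m := by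
      have h4 : ((k : ℝ) / M) ≤ (m : ℝ) + 2 := by
        have h5 : (k : ℝ) < ((k / M : ℕ) + 1 : ℝ) * M := by
          have := Nat.lt_mul_of_div_lt (Nat.lt_succ_self (k / M)) hM
          exact_mod_cast this
        rw [div_le_iff₀ hMr]
        have h6 : ((k / M : ℕ) : ℝ) = m + 1 := by rw [← hm1]; push_cast; ring
        rw [h6] at h5
        linarith
      have h7 : (2 : ℝ) ^ ((k : ℝ) / M) ≤ (2 : ℝ) ^ ((m : ℝ) + 2) :=
        Real.rpow_le_rpow_of_exponent_le (by norm_num) h4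
      have h8 : (2 : ℝ) ^ ((m : ℝ) + 2) = 2 ^ m * 4 := by
        rw [Real.rpow_add (by norm_num), Real.rpow_natCast]
        norm_num
      rw [h8] at h7
      linarith
    have h9 : Real.exp (-(p ^ N * 2 ^ m)) ≤ Real.exp (-(p ^ N / 4 * (2 : ℝ) ^ ((k : ℝ) / M))) := by
      apply Real.exp_le_exp.2
      have := mul_le_mul_of_nonneg_left h3 hx0
      nlinarith
    calc (N : ℝ) * (1 - p ^ N) ^ (2 ^ m)
        ≤ N * Real.exp (-(p ^ (N + 2) * (2 : ℝ) ^ ((k : ℝ) / M))) :=
          mul_le_mul_of_nonneg_left ((h1.trans h9).trans hmain) hN0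
      _ ≤ (N + 2) * Real.exp (-(p ^ (N + 2) * (2 : ℝ) ^ ((k : ℝ) / M))) := by
          apply mul_le_mul_of_nonneg_right (by linarith) (by positivity)

end Pool.Agent.H89SM
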